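import Pool.Agent.X144.MT.StarFin

/-!
# MP_cbdfa9_co, Q1: the monotone triangle polynomial at a reversed row

`α(2n+1; 2n+1, 2n, …, 2, 1) = (-1)^n α(n; 2, 4, …, 2n)` for all `n ≥ 1`.
-/

namespace Pool.Agent.Results.MP_cbdfa9_co.ReversedRow

open MvPolynomial Pool.Agent.X144.MT Pool.Agent.X144.MTStar

/-- **Main result.**  For every `n ≥ 1` there is exactly one polynomial in `n` variables that counts
the monotone triangles with a given strictly increasing bottom row; and for all `n ≥ 1` the value at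
`2n+1, 2n, …, 2, 1` of the one in `2n+1` variables is `(-1)^n` times the value at `2, 4, …, 2n` of the
one in `n` variables. -/
theorem result :
    (∀ n : ℕ, 1 ≤ n → ∃! P : MvPolynomial (Fin n) ℚ, IsAlpha P) ∧
    ∀ n : ℕ, 1 ≤ n → ∀ (P : MvPolynomial (Fin n) ℚ) (Q : MvPolynomial (Fin (2 * n + 1)) ℚ),
      IsAlpha P → IsAlpha Q →
        eval (fun t : Fin (2 * n + 1) => (revRow n t : ℚ)) Q
          = (-1) ^ n * eval (fun t : Fin n => (evenRow t : ℚ)) P := by
  refine ⟨fun n hn => ?_, fun n hn P Q hP hQ => eval_revRow n hn P Q hP hQ⟩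
  obtain ⟨m, rfl⟩ : ∃ m, n = m + 1 := ⟨n - 1, by omega⟩
  exact existsUnique_alpha m

end Pool.Agent.Results.MP_cbdfa9_co.ReversedRow
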